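import Mathlib
import Pool.Agent.H598R2.Deriv

set_option autoImplicit false

open MvPolynomial TrivSqZeroExt

namespace Pool.Agent.H988Z.Mod

noncomputable section

/-- four lines through the origin with cross ratio `l` -/
def quart (l : ℂ) : MvPolynomial (Fin 2) ℂ := X 0 * X 1 * (X 0 - X 1) * (X 0 - C l * X 1)

/-- the coordinate ring of the four lines -/
abbrev RR (l : ℂ) : Type := MvPolynomial (Fin 2) ℂ ⧸ Ideal.span {quart l}

/-- restriction to the line through `(p, q)` -/
def lin (p q : ℂ) : MvPolynomial (Fin 2) ℂ →ₐ[ℂ] Polynomial ℂ :=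
  aeval ![Polynomial.C p * Polynomial.X, Polynomial.C q * Polynomial.X]

theorem lin_coeff (A : MvPolynomial (Fin 2) ℂ) : ∃ a0 a1 a2 : ℂ, ∀ p q : ℂ,
    (lin p q A).coeff 0 = a0 ∧ (lin p q A).coeff 1 = a1 * p + a2 * q := by
  induction A using MvPolynomial.induction_on with
  | C c => exact ⟨c, 0, 0, fun p q => by simp [lin, Polynomial.coeff_C]⟩
  | add A B hA hB =>
    obtain ⟨a0, a1, a2, ha⟩ := hA
    obtain ⟨b0, b1, b2, hb⟩ := hB
    refine ⟨a0 + b0, a1 + b1, a2 + b2, fun p q => ?_⟩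
    rw [map_add, Polynomial.coeff_add, Polynomial.coeff_add, (ha p q).1, (ha p q).2, (hb p q).1,
      (hb p q).2]
    exact ⟨rfl, by ring⟩
  | mul_X A i hA =>
    obtain ⟨a0, a1, a2, ha⟩ := hA
    fin_cases i
    · refine ⟨0, a0, 0, fun p q => ?_⟩
      have : lin p q (X 0) = Polynomial.C p * Polynomial.X := by simp [lin]
      simp only [Fin.zero_eta, map_mul, this, ← mul_assoc]
      rw [Polynomial.coeff_mul_X_zero, show (1 : ℕ) = 0 + 1 from rfl, Polynomial.coeff_mul_X,
        Polynomial.coeff_mul_C, (ha p q).1]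
      exact ⟨rfl, by ring⟩
    · refine ⟨0, 0, a0, fun p q => ?_⟩
      have : lin p q (X 1) = Polynomial.C q * Polynomial.X := by simp [lin]
      simp only [Fin.mk_one, map_mul, this, ← mul_assoc]
      rw [Polynomial.coeff_mul_X_zero, show (1 : ℕ) = 0 + 1 from rfl, Polynomial.coeff_mul_X,
        Polynomial.coeff_mul_C, (ha p q).1]
      exact ⟨rfl, by ring⟩

/-- the twisted embedding of the constants -/
def tw (D : Derivation ℚ ℂ ℂ) (R : Type) [CommRing R] [Algebra ℂ R] : ℂ →+* DualNumber R where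
  toFun c := ⟨algebraMap ℂ R c, algebraMap ℂ R (D c)⟩
  map_one' := TrivSqZeroExt.ext (by simp) (by simp)
  map_zero' := TrivSqZeroExt.ext (by simp) (by simp)
  map_add' a b := TrivSqZeroExt.ext (map_add (algebraMap ℂ R) a b) (by
    change algebraMap ℂ R (D (a + b)) = algebraMap ℂ R (D a) + algebraMap ℂ R (D b)
    rw [map_add, map_add])
  map_mul' a b := TrivSqZeroExt.ext (map_mul (algebraMap ℂ R) a b) (by
    change algebraMap ℂ R (D (a * b)) = algebraMap ℂ R a * algebraMap ℂ R (D b) +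
      algebraMap ℂ R (D a) * algebraMap ℂ R b
    simp only [Derivation.leibniz, smul_eq_mul, map_add, map_mul]
    ring)

theorem fst_tw (D : Derivation ℚ ℂ ℂ) (R : Type) [CommRing R] [Algebra ℂ R] (c : ℂ) :
    (tw D R c).fst = algebraMap ℂ R c := rfl

theorem snd_tw (D : Derivation ℚ ℂ ℂ) (R : Type) [CommRing R] [Algebra ℂ R] (c : ℂ) :
    (tw D R c).snd = algebraMap ℂ R (D c) := rfl

theorem no_lift (D : Derivation ℚ ℂ ℂ) (l : ℂ) (hl : D l = 1) (ψ : RR l →+* DualNumber (RR l))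
    (h1 : ∀ r, (ψ r).fst = r) (h2 : ∀ c, ψ (algebraMap ℂ (RR l) c) = tw D (RR l) c) : False := by
  have hl0 : l ≠ 0 := by
    rintro rfl
    simp at hl
  have hl1 : l ≠ 1 := by
    rintro rfl
    simp at hl
  let mk : MvPolynomial (Fin 2) ℂ →ₐ[ℂ] RR l := Ideal.Quotient.mkₐ ℂ _
  obtain ⟨A, hA⟩ := Ideal.Quotient.mkₐ_surjective ℂ _ (ψ (mk (X 0))).snd
  obtain ⟨B, hB⟩ := Ideal.Quotient.mkₐ_surjective ℂ _ (ψ (mk (X 1))).snd
  have h0 : mk (quart l) = 0 :=
    Ideal.Quotient.eq_zero_iff_mem.2 (Ideal.subset_span rfl)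
  have h3 : ψ (mk (X 0)) * ψ (mk (X 1)) * (ψ (mk (X 0)) - ψ (mk (X 1))) *
      (ψ (mk (X 0)) - tw D (RR l) l * ψ (mk (X 1))) = 0 := by
    rw [← h2, ← map_zero ψ, ← h0]
    simp only [quart, map_mul, map_sub]
    rfl
  have h4 := congrArg TrivSqZeroExt.snd h3
  simp only [snd_mul, fst_mul, snd_sub, fst_sub, h1, fst_tw, snd_tw, hl, map_one, ← hA, ← hB,
    smul_eq_mul, MulOpposite.smul_eq_mul_unop, MulOpposite.unop_op, snd_zero] at h4
  have h5 : mk (A * (X 1 * (X 0 - X 1) * (X 0 - C l * X 1) + X 0 * X 1 * (X 0 - C l * X 1) +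
      X 0 * X 1 * (X 0 - X 1)) + B * (X 0 * (X 0 - X 1) * (X 0 - C l * X 1)
      - X 0 * X 1 * (X 0 - C l * X 1) - C l * X 0 * X 1 * (X 0 - X 1))
      - X 0 * X 1 ^ 2 * (X 0 - X 1)) = 0 := by
    rw [← h4]
    have : mk (C l) = algebraMap ℂ (RR l) l := rfl
    simp only [map_mul, map_sub, map_add, map_pow, this]
    change _ = _
    simp only [mk]
    ring
  obtain ⟨Q, hQ⟩ := Ideal.mem_span_singleton'.1 (Ideal.Quotient.eq_zero_iff_mem.1 h5)
  obtain ⟨a0, a1, a2, ha⟩ := lin_coeff A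
  obtain ⟨b0, b1, b2, hb⟩ := lin_coeff B
  have key : ∀ p q : ℂ, p * q * (p - q) * (p - l * q) = 0 →
      (a1 * p + a2 * q) * (q * (p - q) * (p - l * q) + p * q * (p - l * q) + p * q * (p - q)) +
      (b1 * p + b2 * q) * (p * (p - q) * (p - l * q) - p * q * (p - l * q) - l * p * q * (p - q))
      = p * q ^ 2 * (p - q) := by
    intro p q hpq
    have e := congrArg (lin p q) hQ
    have x0 : lin p q (X 0) = Polynomial.C p * Polynomial.X := by simp [lin]
    have x1 : lin p q (X 1) = Polynomial.C q * Polynomial.X := by simp [lin]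
    have xl : lin p q (C l) = Polynomial.C l := by simp [lin]
    simp only [quart, map_mul, map_sub, map_add, map_pow, x0, x1, xl] at e
    have e2 : (lin p q A * Polynomial.C (q * (p - q) * (p - l * q) + p * q * (p - l * q) +
        p * q * (p - q)) + lin p q B * Polynomial.C (p * (p - q) * (p - l * q) -
        p * q * (p - l * q) - l * p * q * (p - q))) * Polynomial.X ^ 3 =
        Polynomial.C (p * q ^ 2 * (p - q)) * Polynomial.X ^ 4 := by
      have hpq' := congrArg Polynomial.C hpq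
      simp only [map_mul, map_sub, map_add, map_pow, map_zero] at hpq' ⊢
      linear_combination (-1 : Polynomial ℂ) * e + lin p q Q * Polynomial.X ^ 4 * hpq'
    have e3 := congrArg (fun P => Polynomial.coeff P (1 + 3)) e2
    simp only [Polynomial.coeff_mul_X_pow, Polynomial.coeff_add, Polynomial.coeff_mul_C,
      (ha p q).2, (hb p q).2] at e3
    rw [e3, Polynomial.coeff_C_zero]
  have k1 := key 1 0 (by ring)
  have k2 := key 0 1 (by ring)
  have k3 := key 1 1 (by ring)
  have k4 := key l 1 (by ring)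
  have hb1 : b1 = 0 := by linear_combination k1
  have ha2 : a2 = 0 := by
    have : a2 * l = 0 := by linear_combination k2
    exact (mul_eq_zero.1 this).resolve_right hl0
  have hab : a1 = b2 := by
    have : (a1 - b2) * (1 - l) = 0 := by
      rw [hb1, ha2] at k3
      linear_combination k3
    exact sub_eq_zero.1 ((mul_eq_zero.1 this).resolve_right (sub_ne_zero.2 hl1.symm))
  rw [hb1, ha2, hab] at k4
  have : l * (l - 1) = 0 := by linear_combination (-1 : ℂ) * k4
  rcases mul_eq_zero.1 this with h | h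
  · exact hl0 h
  · exact hl1 (sub_eq_zero.1 h)

theorem exists_der : ∃ (D : Derivation ℚ ℂ ℂ) (l : ℂ), D l = 1 := by
  obtain ⟨v, D, -, h, -⟩ := Pool.Agent.H598R2.exists_dual_system Unit ∅ Set.countable_empty
  exact ⟨D (), v (), by simpa using h () ()⟩

theorem finiteType_tw (D : Derivation ℚ ℂ ℂ) (R : Type) [CommRing R] [Algebra ℂ R]
    (mk : MvPolynomial (Fin 2) ℂ →ₐ[ℂ] R) (hmk : Function.Surjective mk) :
    RingHom.FiniteType (A := ℂ) (B := DualNumber R) (tw D R) := by
  let φ : MvPolynomial (Fin 3) ℂ →+* DualNumber R :=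
    eval₂Hom (S₁ := DualNumber R) (tw D R)
      ![inl (mk (X 0)), inl (mk (X 1)), inr (1 : R)]
  have h1 : ∀ A, ∃ s, (φ s).fst = mk A := by
    intro A
    induction A using MvPolynomial.induction_on with
    | C c => exact ⟨C c, by simp only [φ, eval₂Hom_C, fst_tw]; exact (mk.commutes c).symm⟩
    | add A B hA hB =>
      obtain ⟨s, hs⟩ := hA
      obtain ⟨t, ht⟩ := hB
      exact ⟨s + t, by rw [map_add, fst_add, hs, ht, map_add]⟩
    | mul_X A i hA =>
      obtain ⟨s, hs⟩ := hA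
      fin_cases i
      · exact ⟨s * X 0, by rw [map_mul, fst_mul, hs, map_mul]; simp [φ]⟩
      · exact ⟨s * X 1, by rw [map_mul, fst_mul, hs, map_mul]; simp [φ]⟩
  have h1' : ∀ r, ∃ s, (φ s).fst = r := fun r => by
    obtain ⟨A, rfl⟩ := hmk r
    exact h1 A
  have h2 : Function.Surjective φ := by
    intro z
    obtain ⟨s, hs⟩ := h1' z.fst
    obtain ⟨t, ht⟩ := h1' (z.snd - (φ s).snd)
    refine ⟨s + t * X 2, ?_⟩
    have : φ (X 2) = inr 1 := by simp [φ]
    rw [map_add, map_mul, this]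
    ext
    · simp [hs]
    · simp [ht]
  have h3 : tw D R = φ.comp (C : ℂ →+* MvPolynomial (Fin 3) ℂ) := by
    ext1 c
    simp [φ]
  rw [h3]
  refine (RingHom.FiniteType.of_surjective (A := MvPolynomial (Fin 3) ℂ) (B := DualNumber R) φ h2).comp ?_
  exact RingHom.finiteType_algebraMap.2 (inferInstance : Algebra.FiniteType ℂ (MvPolynomial (Fin 3) ℂ))

end

end Pool.Agent.H988Z.Mod
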