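import Mathlib

/-!
Invertible sheaves given by transition functions, ample invertible sheaves, projective morphisms.
-/

set_option autoImplicit false

open AlgebraicGeometry CategoryTheory Limits

namespace Pool.Agent.H988Z.Mod

noncomputable section

/-- The spectrum of the complex numbers. -/
abbrev SpecC : Scheme.{0} := Spec (.of ℂ)

/-! ### Invertible sheaves -/

/-- The ring of regular functions on the open subset `U` of the scheme `X`. -/
def Reg (X : Scheme.{0}) (U : X.Opens) : Type := Γ(X, U)

/-- The ring structure on the regular functions is the one of the structure sheaf. -/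
instance regRing (X : Scheme.{0}) (U : X.Opens) : CommRing (Reg X U) :=
  CommRingCat.commRing Γ(X, U)

/-- Restriction of functions from an open set `U` to a smaller open set `V`. -/
def res {X : Scheme.{0}} {U V : X.Opens} (h : V ≤ U) (s : Reg X U) : Reg X V :=
  (X.presheaf.map (homOfLE h).op).hom s

/-- The preimage of an open set under a morphism of schemes. -/
def pre {X Y : Scheme.{0}} (f : Y ⟶ X) (U : X.Opens) : Y.Opens := f ⁻¹ᵁ U

/-- Pull back of functions on `U` along `f`, restricted to an open `W` inside the preimage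
of `U`. -/
def pb {X Y : Scheme.{0}} (f : Y ⟶ X) {U : X.Opens} {W : Y.Opens} (h : W ≤ pre f U)
    (s : Reg X U) : Reg Y W :=
  (f.appLE U W h).hom s

/-- The open subset of `U` where the function `s` does not vanish. -/
def nz {X : Scheme.{0}} {U : X.Opens} (s : Reg X U) : X.Opens := X.basicOpen (U := U) s

theorem res_mul {X : Scheme.{0}} {U V : X.Opens} (h : V ≤ U) (s t : Reg X U) :
    res h (s * t) = res h s * res h t := map_mul (X.presheaf.map (homOfLE h).op).hom s t

theorem res_one {X : Scheme.{0}} {U V : X.Opens} (h : V ≤ U) : res h 1 = 1 :=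
  map_one (X.presheaf.map (homOfLE h).op).hom

theorem pb_mul {X Y : Scheme.{0}} (f : Y ⟶ X) {U : X.Opens} {W : Y.Opens} (h : W ≤ pre f U)
    (s t : Reg X U) : pb f h (s * t) = pb f h s * pb f h t := map_mul (f.appLE U W h).hom s t

theorem pb_one {X Y : Scheme.{0}} (f : Y ⟶ X) {U : X.Opens} {W : Y.Opens} (h : W ≤ pre f U) :
    pb f h 1 = 1 := map_one (f.appLE U W h).hom

theorem pre_mono {X Y : Scheme.{0}} (f : Y ⟶ X) {U V : X.Opens} (h : U ≤ V) :
    pre f U ≤ pre f V := f.preimage_mono h

theorem pre_inf {X Y : Scheme.{0}} (f : Y ⟶ X) (U V : X.Opens) :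
    pre f U ⊓ pre f V ≤ pre f (U ⊓ V) := le_rfl

theorem res_res {X : Scheme.{0}} {U V W : X.Opens} (h : V ≤ U) (h' : W ≤ V) (x : Reg X U) :
    res h' (res h x) = res (h'.trans h) x := by
  unfold res
  rw [← CommRingCat.comp_apply, ← X.presheaf.map_comp]
  rfl

theorem res_pb {X Y : Scheme.{0}} (f : Y ⟶ X) {U : X.Opens} {W W' : Y.Opens}
    (h : W ≤ pre f U) (hW : W' ≤ W) (s : Reg X U) :
    res hW (pb f h s) = pb f (hW.trans h) s := by
  unfold res pb
  rw [← CommRingCat.comp_apply, Scheme.Hom.appLE_map]

theorem pb_res {X Y : Scheme.{0}} (f : Y ⟶ X) {U V : X.Opens} {W : Y.Opens}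
    (h : W ≤ pre f U) (hU : U ≤ V) (s : Reg X V) :
    pb f h (res hU s) = pb f (h.trans (pre_mono f hU)) s := by
  unfold res pb
  rw [← CommRingCat.comp_apply, Scheme.Hom.map_appLE]

/-- An invertible sheaf (line bundle) on the scheme `X`, given by an open covering `U i` and
transition functions `g i j` on `U i ⊓ U j` which satisfy the cocycle condition
(so they are invertible: `g i j * g j i = g i i = 1`). -/
structure LB (X : Scheme.{0}) where
  /-- index set of the covering -/
  ι : Type
  /-- the open sets of the covering -/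
  U : ι → X.Opens
  cov : ∀ x : X, ∃ i, x ∈ U i
  /-- the transition functions -/
  g : ∀ i j, Reg X (U i ⊓ U j)
  g_self : ∀ i, g i i = 1
  g_mul : ∀ (i j k : ι) (W : X.Opens) (hi : W ≤ U i) (hj : W ≤ U j) (hk : W ≤ U k),
    res (le_inf hi hj) (g i j) * res (le_inf hj hk) (g j k) = res (le_inf hi hk) (g i k)

/-- The pull back `f^* L` of an invertible sheaf along a morphism. -/
def LB.pull {X Y : Scheme.{0}} (L : LB X) (f : Y ⟶ X) : LB Y where
  ι := L.ι
  U i := pre f (L.U i)
  cov y := L.cov (f y)
  g i j := pb f (pre_inf f (L.U i) (L.U j)) (L.g i j)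
  g_self i := by rw [L.g_self, pb_one]
  g_mul i j k W hi hj hk := by
    have h := congrArg (pb f (U := L.U i ⊓ L.U j ⊓ L.U k) (W := W) (le_inf (le_inf hi hj) hk))
      (L.g_mul i j k _ (inf_le_left.trans inf_le_left) (inf_le_left.trans inf_le_right)
        inf_le_right)
    rw [pb_mul, pb_res, pb_res, pb_res] at h
    rw [res_pb, res_pb, res_pb]
    exact h

/-- The tensor product `L ⊗ M` of two invertible sheaves: transition functions multiply. -/
def LB.tensor {X : Scheme.{0}} (L M : LB X) : LB X where
  ι := L.ι × M.ι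
  U i := L.U i.1 ⊓ M.U i.2
  cov x := by
    obtain ⟨i, hi⟩ := L.cov x
    obtain ⟨j, hj⟩ := M.cov x
    exact ⟨(i, j), hi, hj⟩
  g i j := res (inf_le_inf inf_le_left inf_le_left) (L.g i.1 j.1) *
    res (inf_le_inf inf_le_right inf_le_right) (M.g i.2 j.2)
  g_self i := by rw [L.g_self, M.g_self, res_one, res_one, one_mul]
  g_mul i j k W hi hj hk := by
    simp only [res_mul, res_res]
    rw [← L.g_mul i.1 j.1 k.1 W (hi.trans inf_le_left) (hj.trans inf_le_left)
      (hk.trans inf_le_left), ← M.g_mul i.2 j.2 k.2 W (hi.trans inf_le_right)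
      (hj.trans inf_le_right) (hk.trans inf_le_right)]
    ring

/-- Two invertible sheaves are isomorphic: on a common refinement `W k` of the two coverings the
two cocycles differ by a coboundary `h k / h l` of invertible functions. -/
def LB.Iso {X : Scheme.{0}} (L M : LB X) : Prop :=
  ∃ (κ : Type) (W : κ → X.Opens) (a : κ → L.ι) (b : κ → M.ι)
    (ha : ∀ k, W k ≤ L.U (a k)) (hb : ∀ k, W k ≤ M.U (b k)) (h : ∀ k, Reg X (W k)),
    (∀ x : X, ∃ k, x ∈ W k) ∧ (∀ k, IsUnit (h k)) ∧
    ∀ (k l : κ) (V : X.Opens) (hk : V ≤ W k) (hl : V ≤ W l),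
      res (le_inf (hk.trans (ha k)) (hl.trans (ha l))) (L.g (a k) (a l)) * res hl (h l) =
        res hk (h k) * res (le_inf (hk.trans (hb k)) (hl.trans (hb l))) (M.g (b k) (b l))

/-- A global section of the tensor power `L^n`: functions `s i` on `U i` with
`s i = (g i j)^n * s j` on overlaps. -/
structure LB.PowSec {X : Scheme.{0}} (L : LB X) (n : ℕ) where
  /-- the local functions -/
  s : ∀ i, Reg X (L.U i)
  compat : ∀ i j, res inf_le_left (s i) = L.g i j ^ n * res inf_le_right (s j)

/-- The open set `X_t` on which the section `t` does not vanish. -/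
def LB.PowSec.nonvan {X : Scheme.{0}} {L : LB X} {n : ℕ} (t : L.PowSec n) : X.Opens :=
  ⨆ i, nz (t.s i)

/-- `L` is ample (Stacks 01PS): `X` is quasi-compact and every point has an affine
neighbourhood of the form `X_t` with `t` a section of a positive power of `L`. -/
def LB.IsAmple {X : Scheme.{0}} (L : LB X) : Prop :=
  CompactSpace X ∧
    ∀ x : X, ∃ n : ℕ, 0 < n ∧ ∃ t : L.PowSec n, x ∈ t.nonvan ∧ IsAffineOpen t.nonvan

/-- `L` is `f`-ample (Stacks 01VH): `f` is quasi-compact and `L` is ample on the preimage of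
every affine open subset of the base. -/
def IsRelAmple {X S : Scheme.{0}} (f : X ⟶ S) (L : LB X) : Prop :=
  QuasiCompact f ∧ ∀ V : S.Opens, IsAffineOpen V → (L.pull (pre f V).ι).IsAmple

/-- `f` is quasi-projective (Stacks 01VW): of finite type, with an `f`-ample invertible sheaf. -/
def IsQuasiProjective {X S : Scheme.{0}} (f : X ⟶ S) : Prop :=
  LocallyOfFiniteType f ∧ QuasiCompact f ∧ ∃ L : LB X, IsRelAmple f L

/-- `f` is projective: proper and quasi-projective (over a quasi-compact and quasi-separated base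
this is the notion of EGA, see Stacks 0BCL). -/
def IsProjective {X S : Scheme.{0}} (f : X ⟶ S) : Prop :=
  IsProper f ∧ IsQuasiProjective f

end

end Pool.Agent.H988Z.Mod
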