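import Pool.Agent.H988Z.Mod.Defs

set_option autoImplicit false

open AlgebraicGeometry CategoryTheory Limits

namespace Pool.Agent.H988Z.Mod

noncomputable section

theorem res_self {X : Scheme.{0}} {U : X.Opens} (h : U ≤ U) (x : Reg X U) : res h x = x := by
  unfold res
  rw [Subsingleton.elim (homOfLE h).op (𝟙 (Opposite.op U)), X.presheaf.map_id]
  rfl

theorem pb_pb {X Y Z : Scheme.{0}} (f : Y ⟶ X) (g : Z ⟶ Y) {U : X.Opens} {V : Y.Opens}
    {W : Z.Opens} (h : V ≤ pre f U) (h' : W ≤ pre g V) (s : Reg X U) :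
    pb g h' (pb f h s) = pb (g ≫ f) (h'.trans (pre_mono g h)) s := by
  unfold pb
  rw [← CommRingCat.comp_apply, Scheme.Hom.appLE_comp_appLE]

theorem pb_id {X : Scheme.{0}} {U W : X.Opens} (h : W ≤ pre (𝟙 X) U) (s : Reg X U) :
    pb (𝟙 X) h s = res h s := by
  unfold pb res
  simp [Scheme.Hom.appLE]
  rfl

theorem isUnit_res {X : Scheme.{0}} {U V : X.Opens} (h : V ≤ U) {s : Reg X U} (hs : IsUnit s) :
    IsUnit (res h s) := hs.map (X.presheaf.map (homOfLE h).op).hom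

theorem isUnit_pb {X Y : Scheme.{0}} (f : Y ⟶ X) {U : X.Opens} {W : Y.Opens} (h : W ≤ pre f U)
    {s : Reg X U} (hs : IsUnit s) : IsUnit (pb f h s) := hs.map (f.appLE U W h).hom

/-- transition function restricted to a small open set -/
def LB.tr {X : Scheme.{0}} (L : LB X) (i j : L.ι) (V : X.Opens) (hi : V ≤ L.U i)
    (hj : V ≤ L.U j) : Reg X V := res (le_inf hi hj) (L.g i j)

theorem LB.tr_mul {X : Scheme.{0}} (L : LB X) (i j k : L.ι) (V : X.Opens) (hi : V ≤ L.U i)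
    (hj : V ≤ L.U j) (hk : V ≤ L.U k) :
    L.tr i j V hi hj * L.tr j k V hj hk = L.tr i k V hi hk := L.g_mul i j k V hi hj hk

theorem LB.tr_self {X : Scheme.{0}} (L : LB X) (i : L.ι) (V : X.Opens) (hi : V ≤ L.U i) :
    L.tr i i V hi hi = 1 := by
  unfold LB.tr
  rw [L.g_self, res_one]

theorem LB.isUnit_tr {X : Scheme.{0}} (L : LB X) (i j : L.ι) (V : X.Opens) (hi : V ≤ L.U i)
    (hj : V ≤ L.U j) : IsUnit (L.tr i j V hi hj) :=
  IsUnit.of_mul_eq_one (L.tr j i V hj hi) (by rw [L.tr_mul, L.tr_self])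

theorem LB.res_tr {X : Scheme.{0}} (L : LB X) (i j : L.ι) (V V' : X.Opens) (hi : V ≤ L.U i)
    (hj : V ≤ L.U j) (h : V' ≤ V) :
    res h (L.tr i j V hi hj) = L.tr i j V' (h.trans hi) (h.trans hj) := by
  unfold LB.tr
  rw [res_res]

theorem LB.tr_tensor {X : Scheme.{0}} (L M : LB X) (i j : L.ι × M.ι) (V : X.Opens)
    (hi : V ≤ (L.tensor M).U i) (hj : V ≤ (L.tensor M).U j) :
    (L.tensor M).tr i j V hi hj =
      L.tr i.1 j.1 V (hi.trans inf_le_left) (hj.trans inf_le_left) *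
        M.tr i.2 j.2 V (hi.trans inf_le_right) (hj.trans inf_le_right) := by
  unfold LB.tr
  refine (res_mul (le_inf hi hj) _ _).trans ?_
  exact congrArg₂ (· * ·) (res_res _ _ _) (res_res _ _ _)

theorem LB.tr_pull {X Y : Scheme.{0}} (L : LB X) (f : Y ⟶ X) (i j : L.ι) (V : Y.Opens)
    (hi : V ≤ (L.pull f).U i) (hj : V ≤ (L.pull f).U j) :
    (L.pull f).tr i j V hi hj = pb f (U := L.U i ⊓ L.U j) (le_inf hi hj) (L.g i j) := by
  unfold LB.tr
  change res _ (pb f _ (L.g i j)) = _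
  rw [res_pb]

theorem LB.pb_tr {X Y : Scheme.{0}} (L : LB X) (f : Y ⟶ X) (i j : L.ι) (V : X.Opens)
    (hi : V ≤ L.U i) (hj : V ≤ L.U j) (W : Y.Opens) (hW : W ≤ pre f V) :
    pb f hW (L.tr i j V hi hj) =
      (L.pull f).tr i j W (hW.trans (pre_mono f hi)) (hW.trans (pre_mono f hj)) := by
  rw [LB.tr_pull]
  unfold LB.tr
  rw [pb_res]

theorem LB.iso_iff {X : Scheme.{0}} (L M : LB X) : L.Iso M ↔
    ∃ (κ : Type) (W : κ → X.Opens) (a : κ → L.ι) (b : κ → M.ι)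
    (ha : ∀ k, W k ≤ L.U (a k)) (hb : ∀ k, W k ≤ M.U (b k)) (h : ∀ k, Reg X (W k)),
    (∀ x : X, ∃ k, x ∈ W k) ∧ (∀ k, IsUnit (h k)) ∧
    ∀ (k l : κ) (V : X.Opens) (hk : V ≤ W k) (hl : V ≤ W l),
      L.tr (a k) (a l) V (hk.trans (ha k)) (hl.trans (ha l)) * res hl (h l) =
        res hk (h k) * M.tr (b k) (b l) V (hk.trans (hb k)) (hl.trans (hb l)) := Iff.rfl

/-- isomorphism with trivial coboundary -/
theorem LB.iso_of_eq {X : Scheme.{0}} {L M : LB X} (κ : Type) (W : κ → X.Opens) (a : κ → L.ι)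
    (b : κ → M.ι) (ha : ∀ k, W k ≤ L.U (a k)) (hb : ∀ k, W k ≤ M.U (b k))
    (hc : ∀ x : X, ∃ k, x ∈ W k)
    (he : ∀ (k l : κ) (V : X.Opens) (hk : V ≤ W k) (hl : V ≤ W l),
      L.tr (a k) (a l) V (hk.trans (ha k)) (hl.trans (ha l)) =
        M.tr (b k) (b l) V (hk.trans (hb k)) (hl.trans (hb l))) : L.Iso M := by
  rw [LB.iso_iff]
  refine ⟨κ, W, a, b, ha, hb, fun _ => 1, hc, fun _ => isUnit_one, fun k l V hk hl => ?_⟩
  rw [res_one, res_one, mul_one, one_mul, he k l V hk hl]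

theorem LB.Iso.refl {X : Scheme.{0}} (L : LB X) : L.Iso L :=
  LB.iso_of_eq L.ι L.U id id (fun _ => le_rfl) (fun _ => le_rfl) L.cov fun _ _ _ _ _ => rfl

theorem LB.Iso.trans {X : Scheme.{0}} {L M N : LB X} (h1 : L.Iso M) (h2 : M.Iso N) :
    L.Iso N := by
  rw [LB.iso_iff] at h1 h2 ⊢
  obtain ⟨κ, W, a, b, ha, hb, h, hc, hu, he⟩ := h1
  obtain ⟨κ', W', a', b', ha', hb', h', hc', hu', he'⟩ := h2
  refine ⟨κ × κ', fun k => W k.1 ⊓ W' k.2, fun k => a k.1, fun k => b' k.2,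
    fun k => inf_le_left.trans (ha _), fun k => inf_le_right.trans (hb' _),
    fun k => res inf_le_left (h k.1) *
      M.tr (b k.1) (a' k.2) _ (inf_le_left.trans (hb _)) (inf_le_right.trans (ha' _)) *
      res inf_le_right (h' k.2), fun x => ?_, fun k => ?_, fun k l V hk hl => ?_⟩
  · obtain ⟨k, hk⟩ := hc x
    obtain ⟨k', hk'⟩ := hc' x
    exact ⟨(k, k'), hk, hk'⟩
  · exact ((isUnit_res _ (hu _)).mul (M.isUnit_tr _ _ _ _ _)).mul (isUnit_res _ (hu' _))
  · simp only [res_mul, res_res, LB.res_tr]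
    have e1 := he k.1 l.1 V (hk.trans inf_le_left) (hl.trans inf_le_left)
    have e2 := he' k.2 l.2 V (hk.trans inf_le_right) (hl.trans inf_le_right)
    have e3 := M.tr_mul (b k.1) (b l.1) (a' l.2) V ((hk.trans inf_le_left).trans (hb _))
      ((hl.trans inf_le_left).trans (hb _)) ((hl.trans inf_le_right).trans (ha' _))
    have e4 := M.tr_mul (b k.1) (a' k.2) (a' l.2) V ((hk.trans inf_le_left).trans (hb _))
      ((hk.trans inf_le_right).trans (ha' _)) ((hl.trans inf_le_right).trans (ha' _))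
    linear_combination
      (M.tr (b l.1) (a' l.2) V ((hl.trans inf_le_left).trans (hb _))
        ((hl.trans inf_le_right).trans (ha' _)) * res (hl.trans inf_le_right) (h' l.2)) * e1 +
      (res (hk.trans inf_le_left) (h k.1) * res (hl.trans inf_le_right) (h' l.2)) * (e3 - e4) +
      (res (hk.trans inf_le_left) (h k.1) * M.tr (b k.1) (a' k.2) V
        ((hk.trans inf_le_left).trans (hb _)) ((hk.trans inf_le_right).trans (ha' _))) * e2

theorem LB.Iso.pull {X Y : Scheme.{0}} {L M : LB X} (h1 : L.Iso M) (f : Y ⟶ X) :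
    (L.pull f).Iso (M.pull f) := by
  rw [LB.iso_iff] at h1 ⊢
  obtain ⟨κ, W, a, b, ha, hb, h, hc, hu, he⟩ := h1
  refine ⟨κ, fun k => pre f (W k), a, b, fun k => pre_mono f (ha k),
    fun k => pre_mono f (hb k), fun k => pb f le_rfl (h k), fun y => hc (f y),
    fun k => isUnit_pb _ _ (hu k), fun k l V hk hl => ?_⟩
  have e := congrArg (pb f (U := W k ⊓ W l) (W := V) (le_inf hk hl))
    (he k l (W k ⊓ W l) inf_le_left inf_le_right)
  rw [pb_mul, pb_mul, LB.pb_tr, LB.pb_tr, pb_res, pb_res] at e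
  rw [res_pb, res_pb]
  exact e

theorem LB.Iso.tensor_right {X : Scheme.{0}} {L M : LB X} (h1 : L.Iso M) (N : LB X) :
    (L.tensor N).Iso (M.tensor N) := by
  rw [LB.iso_iff] at h1 ⊢
  obtain ⟨κ, W, a, b, ha, hb, h, hc, hu, he⟩ := h1
  refine ⟨κ × N.ι, fun k => W k.1 ⊓ N.U k.2, fun k => (a k.1, k.2), fun k => (b k.1, k.2),
    fun k => inf_le_inf (ha _) le_rfl, fun k => inf_le_inf (hb _) le_rfl,
    fun k => res inf_le_left (h k.1), fun x => ?_, fun k => isUnit_res _ (hu _), fun k l V hk hl => ?_⟩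
  · obtain ⟨k, hk⟩ := hc x
    obtain ⟨k', hk'⟩ := N.cov x
    exact ⟨(k, k'), hk, hk'⟩
  · rw [LB.tr_tensor, LB.tr_tensor, res_res, res_res]
    have e1 := he k.1 l.1 V (hk.trans inf_le_left) (hl.trans inf_le_left)
    linear_combination (N.tr k.2 l.2 V (hk.trans inf_le_right) (hl.trans inf_le_right)) * e1

theorem LB.tr_pull_pull {X Y Z : Scheme.{0}} (L : LB X) (f : Y ⟶ X) (g : Z ⟶ Y) (i j : L.ι)
    (V : Z.Opens) (hi : V ≤ ((L.pull f).pull g).U i) (hj : V ≤ ((L.pull f).pull g).U j) :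
    ((L.pull f).pull g).tr i j V hi hj = (L.pull (g ≫ f)).tr i j V hi hj := by
  rw [LB.tr_pull, LB.tr_pull]
  change pb g _ (pb f _ (L.g i j)) = _
  rw [pb_pb]

/-- the trivial invertible sheaf -/
def LB.triv (X : Scheme.{0}) : LB X where
  ι := Unit
  U _ := ⊤
  cov _ := ⟨(), trivial⟩
  g _ _ := 1
  g_self _ := rfl
  g_mul _ _ _ _ _ _ _ := by simp [res_one]

theorem pol_id {X S : Scheme.{0}} (f : X ⟶ S) (L : LB X) :
    ∃ B : LB S, (L.pull (𝟙 X)).Iso (L.tensor (B.pull f)) := by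
  refine ⟨LB.triv S, LB.iso_of_eq L.ι L.U id (fun i => (i, ())) (fun _ => le_rfl)
    (fun _ => le_inf le_rfl le_top) L.cov fun k l V hk hl => ?_⟩
  rw [LB.tr_tensor, LB.tr_pull, LB.tr_pull, pb_id]
  change _ = _ * pb f _ 1
  rw [pb_one, mul_one]
  rfl

theorem pol_comp {X X' X'' S' S'' : Scheme.{0}} {f' : X' ⟶ S'} {f'' : X'' ⟶ S''}
    {L : LB X} {L' : LB X'} {L'' : LB X''} {t' : X'' ⟶ X'} {t : X' ⟶ X} {b : S'' ⟶ S'}
    (w : t' ≫ f' = f'' ≫ b)
    (h' : ∃ B : LB S'', (L'.pull t').Iso (L''.tensor (B.pull f'')))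
    (h : ∃ B : LB S', (L.pull t).Iso (L'.tensor (B.pull f'))) :
    ∃ B : LB S'', (L.pull (t' ≫ t)).Iso (L''.tensor (B.pull f'')) := by
  obtain ⟨B', h'⟩ := h'
  obtain ⟨B, h⟩ := h
  refine ⟨B'.tensor (B.pull b), ?_⟩
  have s1 : (L.pull (t' ≫ t)).Iso ((L.pull t).pull t') :=
    LB.iso_of_eq L.ι (fun i => pre (t' ≫ t) (L.U i)) id id (fun _ => le_rfl) (fun _ => le_rfl)
      (L.pull (t' ≫ t)).cov fun k l V hk hl => (LB.tr_pull_pull L t t' k l V hk hl).symm
  have s2 := h.pull t'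
  have s3 : ((L'.tensor (B.pull f')).pull t').Iso ((L'.pull t').tensor (B.pull (t' ≫ f'))) := by
    refine LB.iso_of_eq (L'.ι × B.ι) (fun i => ((L'.tensor (B.pull f')).pull t').U i) id id
      (fun _ => le_rfl) (fun _ => le_rfl) ((L'.tensor (B.pull f')).pull t').cov
      fun k l V hk hl => ?_
    have e := LB.pb_tr (L'.tensor (B.pull f')) t' k l
      ((L'.tensor (B.pull f')).U k ⊓ (L'.tensor (B.pull f')).U l) inf_le_left inf_le_right V
      (le_inf hk hl)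
    refine e.symm.trans ?_
    rw [LB.tr_tensor, pb_mul, LB.pb_tr, LB.pb_tr, LB.tr_pull_pull, LB.tr_tensor]
    rfl
  have s4 := h'.tensor_right (B.pull (t' ≫ f'))
  have s5 : ((L''.tensor (B'.pull f'')).tensor (B.pull (f'' ≫ b))).Iso
      (L''.tensor ((B'.tensor (B.pull b)).pull f'')) := by
    refine LB.iso_of_eq ((L''.ι × B'.ι) × B.ι)
      (fun i => ((L''.tensor (B'.pull f'')).tensor (B.pull (f'' ≫ b))).U i) id
      (fun i => (i.1.1, (i.1.2, i.2))) (fun _ => le_rfl)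
      (fun i => le_inf (inf_le_left.trans inf_le_left)
        (le_inf (inf_le_left.trans inf_le_right) inf_le_right))
      ((L''.tensor (B'.pull f'')).tensor (B.pull (f'' ≫ b))).cov fun k l V hk hl => ?_
    have hk' : V ≤ pre f'' ((B'.tensor (B.pull b)).U (k.1.2, k.2)) :=
      le_inf (hk.trans (inf_le_left.trans inf_le_right)) (hk.trans inf_le_right)
    have hl' : V ≤ pre f'' ((B'.tensor (B.pull b)).U (l.1.2, l.2)) :=
      le_inf (hl.trans (inf_le_left.trans inf_le_right)) (hl.trans inf_le_right)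
    have e := LB.pb_tr (B'.tensor (B.pull b)) f'' (k.1.2, k.2) (l.1.2, l.2)
      ((B'.tensor (B.pull b)).U (k.1.2, k.2) ⊓ (B'.tensor (B.pull b)).U (l.1.2, l.2))
      inf_le_left inf_le_right V (le_inf hk' hl')
    rw [LB.tr_tensor, LB.tr_tensor, LB.tr_tensor]
    refine Eq.trans ?_ (congrArg _ e)
    rw [LB.tr_tensor, pb_mul, LB.pb_tr, LB.pb_tr, LB.tr_pull_pull, mul_assoc]
    rfl
  rw [w] at s3 s4
  exact (((s1.trans s2).trans s3).trans s4).trans s5

end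

end Pool.Agent.H988Z.Mod
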