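import Pool.Agent.H988Z.Mod.Stacks
import Pool.Agent.H988Z.Mod.Alg

set_option autoImplicit false

open AlgebraicGeometry CategoryTheory Limits MonoidalCategory CartesianMonoidalCategory

namespace Pool.Agent.H988Z.Mod

noncomputable section

/-- the trivial group scheme -/
abbrev G1 : Over SpecC := 𝟙_ (Over SpecC)

theorem oneMap_eq (Z : Over SpecC) : oneMap G1 Z = (λ_ Z).inv := by
  simp [oneMap, prodC]

/-- the trivial action -/
def trivAct (Z : Over SpecC) : Action G1 Z where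
  a := (λ_ Z).hom
  one_a := by rw [oneMap_eq]; exact (λ_ Z).inv_hom_id
  mul_a := by simp [mulMap, prodMap, prodC]

theorem act_eq {P : Over SpecC} (α : Action G1 P) : α.a = (λ_ P).hom := by
  have := α.one_a
  rw [oneMap_eq] at this
  exact ((Iso.inv_comp_eq (λ_ P)).1 this).trans (Category.comp_id _)

section
variable {Z : Over SpecC} {T : Over SpecC → Prop}

theorem isIso_pi (y : QuotObj (trivAct Z) T) : IsIso y.π := by
  have h := y.torsor
  rw [act_eq] at h
  have hm : Mono y.π := by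
    refine ⟨fun {W} u v huv => ?_⟩
    have h1 := h.lift_fst u v huv
    have h2 := h.lift_snd u v huv
    exact h1.symm.trans ((congrArg _ (leftUnitor_hom y.P)).trans h2)
  have hm' : Mono y.π.left := inferInstanceAs (Mono ((Over.forget _).map y.π))
  have := y.flat
  have := y.surj
  have := y.lfp
  have : IsOpenImmersion y.π.left := IsOpenImmersion.of_flat_of_mono _
  have : IsIso y.π.left := (isIso_iff_isOpenImmersion_and_surjective _).2 ⟨inferInstance, inferInstance⟩
  have : IsIso ((Over.forget _).map y.π) := this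
  exact isIso_of_reflects_iso _ (Over.forget _)

/-- the morphism to `Z` defined by an object of the quotient by the trivial group -/
def zOf (y : QuotObj (trivAct Z) T) : y.S ⟶ Z :=
  haveI := isIso_pi y
  inv y.π ≫ y.φ

theorem base_zOf {y' y : QuotObj (trivAct Z) T} (n : y' ⟶ y) :
    QuotObj.Hom.base n ≫ zOf y = zOf y' := by
  have := isIso_pi y
  have := isIso_pi y'
  change n.base ≫ inv y.π ≫ y.φ = inv y'.π ≫ y'.φ
  rw [IsIso.eq_inv_comp, ← Category.assoc, ← n.cart.w, Category.assoc, IsIso.hom_inv_id_assoc,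
    n.comm]

/-- the trivial torsor -/
def triv (S : Over SpecC) (hS : T S) (z : S ⟶ Z) : QuotObj (trivAct Z) T where
  S := S
  test := hS
  P := S
  act := trivAct S
  π := 𝟙 S
  φ := z
  flat := inferInstanceAs (Flat (𝟙 S.left))
  surj := inferInstanceAs (Surjective (𝟙 S.left))
  lfp := inferInstanceAs (LocallyOfFinitePresentation (𝟙 S.left))
  torsor := by
    change IsPullback (λ_ S).hom _ _ _
    rw [← leftUnitor_hom]
    exact IsPullback.of_horiz_isIso ⟨rfl⟩
  equivariant := by simp [trivAct, IsEquivariant, prodMap, prodC]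

theorem zOf_triv (S : Over SpecC) (hS : T S) (z : S ⟶ Z) : zOf (triv S hS z) = z := by
  simp [zOf, triv]

/-- morphism of trivial torsors -/
def trivHom {S' S : Over SpecC} (hS' : T S') (hS : T S) {z' : S' ⟶ Z} {z : S ⟶ Z} (h : S' ⟶ S)
    (w : h ≫ z = z') : triv S' hS' z' ⟶ triv S hS z where
  base := h
  tot := h
  cart := by
    change IsPullback h (𝟙 S') (𝟙 S) h
    exact IsPullback.of_vert_isIso ⟨by simp⟩
  equivariant := by simp [triv, trivAct, IsEquivariant, prodMap, prodC]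
  comm := w

end

/-- The key step: for a first order thickening with two complex structures, a retraction for the
first structure gives a retraction for the second. -/
theorem key {Z : Over SpecC} {T : Over SpecC → Prop}
    (hT : ∀ S : Over SpecC, IsAffine S.left → LocallyOfFiniteType S.hom → T S)
    (𝒞 : PolClass) (Φ : Family 𝒞 T ⥤ QuotObj (trivAct Z) T) [Φ.IsEquivalence]
    (α : Φ ⋙ quotBase (trivAct Z) T ≅ familyBase 𝒞 T)
    [IsAffine Z.left] [LocallyOfFiniteType Z.hom]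
    (A : Scheme.{0}) [IsAffine A] (c1 c2 : A ⟶ SpecC) [LocallyOfFiniteType c1]
    [LocallyOfFiniteType c2] (j : Z.left ⟶ A) (hj1 : j ≫ c1 = Z.hom) (hj2 : j ≫ c2 = Z.hom)
    (hpt : ∀ (k : Type) [Field k] (s : Spec (.of k) ⟶ A), s ≫ c1 = s ≫ c2)
    (r : A ⟶ Z.left) (hr : r ≫ Z.hom = c1) (hjr : j ≫ r = 𝟙 _) :
    ∃ w : A ⟶ Z.left, w ≫ Z.hom = c2 ∧ j ≫ w = 𝟙 _ := by
  let S1 : Over SpecC := Over.mk c1
  have h0 : T Z := hT Z inferInstance inferInstance
  have h1 : T S1 := hT S1 (inferInstanceAs (IsAffine A)) (inferInstanceAs (LocallyOfFiniteType c1))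
  let q0 : QuotObj (trivAct Z) T := triv Z h0 (𝟙 Z)
  let q1 : QuotObj (trivAct Z) T := triv S1 h1 (Over.homMk r hr)
  let m : q0 ⟶ q1 := trivHom h0 h1 (Over.homMk j hj1) (Over.OverMorphism.ext hjr)
  let ξ0 := Φ.objPreimage q0
  let ξ1 := Φ.objPreimage q1
  let e0 : Φ.obj ξ0 ≅ q0 := Φ.objObjPreimageIso q0
  let e1 : Φ.obj ξ1 ≅ q1 := Φ.objObjPreimageIso q1
  let μ : ξ0 ⟶ ξ1 := Φ.preimage (e0.hom ≫ m ≫ e1.inv)
  let b0 : ξ0.S ≅ Z := (α.app ξ0).symm ≪≫ (quotBase _ T).mapIso e0
  let b1 : ξ1.S ≅ S1 := (α.app ξ1).symm ≪≫ (quotBase _ T).mapIso e1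
  let a : ∀ ξ : Family 𝒞 T, ξ.S ⟶ (Φ.obj ξ).S := fun ξ => α.inv.app ξ
  have ha : ∀ {ξ' ξ : Family 𝒞 T} (ν : ξ' ⟶ ξ),
      Family.Hom.base ν ≫ a ξ = a ξ' ≫ QuotObj.Hom.base (Φ.map ν) :=
    fun ν => α.inv.naturality ν
  have hμ : μ.base ≫ b1.hom = b0.hom ≫ Over.homMk j hj1 := by
    have n := ha μ
    have n2 : Φ.map μ ≫ e1.hom = e0.hom ≫ m := by
      rw [Φ.map_preimage]
      simp
    have n3 : QuotObj.Hom.base (Φ.map μ) ≫ QuotObj.Hom.base e1.hom =
        QuotObj.Hom.base e0.hom ≫ QuotObj.Hom.base m := congrArg QuotObj.Hom.base n2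
    change μ.base ≫ a ξ1 ≫ QuotObj.Hom.base e1.hom =
      (a ξ0 ≫ QuotObj.Hom.base e0.hom) ≫ QuotObj.Hom.base m
    rw [← Category.assoc, n, Category.assoc, Category.assoc, n3]
  have hμl : μ.base.left ≫ b1.hom.left = b0.hom.left ≫ j := congrArg (·.left) hμ
  have hb1 : b1.hom.left ≫ c1 = ξ1.S.hom := Over.w b1.hom
  have hb0 : b0.hom.left ≫ Z.hom = ξ0.S.hom := Over.w b0.hom
  have : IsIso b1.hom.left := inferInstanceAs (IsIso ((Over.forget _).map b1.hom))
  let bl : ξ1.S.left ⟶ A := b1.hom.left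
  have : IsIso bl := this
  let S2 : Over SpecC := Over.mk (bl ≫ c2)
  have h2 : T S2 := hT S2 (IsAffine.of_isIso bl) (inferInstanceAs (LocallyOfFiniteType (bl ≫ c2)))
  let ξ2 : Family 𝒞 T :=
    { S := S2
      test := h2
      X := ξ1.X
      f := ξ1.f
      L := ξ1.L
      smooth := ξ1.smooth
      projective := ξ1.projective
      ample := ξ1.ample
      fibres := fun k _ _ s => by
        have h := ξ1.fibres k s
        have e : s ≫ ξ1.S.hom = s ≫ S2.hom := by
          rw [← hb1]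
          change s ≫ bl ≫ c1 = s ≫ bl ≫ c2
          rw [← Category.assoc, ← Category.assoc, hpt]
        rw [e] at h
        exact h }
  have hw : μ.base.left ≫ bl ≫ c2 = ξ0.S.hom := by
    rw [← Category.assoc, hμl, Category.assoc, hj2, hb0]
  let μ' : ξ0 ⟶ ξ2 :=
    { base := Over.homMk μ.base.left hw
      tot := μ.tot
      cart := μ.cart
      pol := μ.pol }
  have n := ha μ'
  have z0 : zOf (Φ.obj ξ0) = QuotObj.Hom.base e0.hom := by
    rw [← base_zOf e0.hom, zOf_triv]
    exact Category.comp_id _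
  have hz : μ'.base ≫ a ξ2 ≫ zOf (Φ.obj ξ2) = b0.hom := by
    rw [← Category.assoc, n, Category.assoc, base_zOf, z0]
    rfl
  let u : S2 ⟶ Z := a ξ2 ≫ zOf (Φ.obj ξ2)
  have hu : u.left ≫ Z.hom = bl ≫ c2 := Over.w u
  have hzl : μ.base.left ≫ u.left = b0.hom.left := congrArg (·.left) hz
  have : IsIso b0.hom.left := inferInstanceAs (IsIso ((Over.forget _).map b0.hom))
  refine ⟨inv bl ≫ u.left, ?_, ?_⟩
  · rw [Category.assoc, hu, IsIso.inv_hom_id_assoc]
  · rw [← cancel_epi b0.hom.left, ← Category.assoc, ← hμl, Category.comp_id, ← hzl]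
    change (μ.base.left ≫ bl) ≫ inv bl ≫ u.left = _
    simp

/-- On an affine scheme over an affine base the trivial sheaf is relatively ample. -/
theorem isRelAmple_triv {X S : Scheme.{0}} (f : X ⟶ S) [IsAffineHom f] :
    IsRelAmple f (LB.triv X) := by
  refine ⟨inferInstance, fun V hV => ?_⟩
  have hU : IsAffineOpen (pre f V) := hV.preimage f
  have : IsAffine (pre f V) := hU
  let t : ((LB.triv X).pull (pre f V).ι).PowSec 1 := ⟨fun _ => 1, fun i j => by
    change _ = pb _ _ 1 ^ 1 * _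
    rw [res_one, res_one, pb_one, one_pow, one_mul]⟩
  have ht : t.nonvan = ⊤ := by
    unfold LB.PowSec.nonvan
    rw [eq_top_iff]
    refine le_trans ?_ (le_iSup _ ())
    exact le_of_eq (Scheme.basicOpen_one _ (U := pre (pre f V).ι ⊤)).symm
  refine ⟨inferInstance, fun x => ⟨1, one_pos, t, ?_⟩⟩
  rw [ht]
  exact ⟨trivial, isAffineOpen_top _⟩

theorem main : ∃ (Z G : Over SpecC) (_ : GrpObj G) (ρ : Action G Z),
    IsQuasiProjective Z.hom ∧ IsLinearAlgebraic G ∧
    ∀ (T : Over SpecC → Prop),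
      (∀ S : Over SpecC, IsAffine S.left → LocallyOfFiniteType S.hom → T S) →
      ∀ (𝒞 : PolClass) (Φ : Family 𝒞 T ⥤ QuotObj ρ T), Φ.IsEquivalence →
        IsEmpty (Φ ⋙ quotBase ρ T ≅ familyBase 𝒞 T) := by
  obtain ⟨D, l, hl⟩ := exists_der
  let Z : Over SpecC := Over.mk (Spec.map (CommRingCat.ofHom (algebraMap ℂ (RR l))))
  have hZa : IsAffine Z.left := inferInstanceAs (IsAffine (Spec _))
  have hZf : LocallyOfFiniteType Z.hom := by
    change LocallyOfFiniteType (Spec.map _)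
    rw [HasRingHomProperty.Spec_iff (P := @LocallyOfFiniteType)]
    exact RingHom.finiteType_algebraMap.2 inferInstance
  have hZh : IsAffineHom Z.hom := inferInstance
  refine ⟨Z, G1, inferInstance, trivAct Z,
    ⟨hZf, inferInstance, LB.triv _, isRelAmple_triv _⟩,
    ⟨inferInstanceAs (IsAffine SpecC), inferInstanceAs (LocallyOfFiniteType (𝟙 SpecC))⟩,
    fun T hT 𝒞 Φ hΦ => ⟨fun α => ?_⟩⟩
  have hft : ∀ D' : Derivation ℚ ℂ ℂ, LocallyOfFiniteType (Spec.map (CommRingCat.ofHom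
      (R := ℂ) (S := DualNumber (RR l)) (tw D' (RR l)))) := fun D' => by
    rw [HasRingHomProperty.Spec_iff (P := @LocallyOfFiniteType)]
    exact finiteType_tw D' (RR l) (Ideal.Quotient.mkₐ ℂ _) (Ideal.Quotient.mkₐ_surjective ℂ _)
  have := hft 0
  have := hft D
  let fst' : DualNumber (RR l) →+* RR l := (TrivSqZeroExt.fstHom (RR l) (RR l) (RR l)).toRingHom
  let inl' : RR l →+* DualNumber (RR l) := TrivSqZeroExt.inlHom (RR l) (RR l)
  have hj : ∀ D' : Derivation ℚ ℂ ℂ, Spec.map (CommRingCat.ofHom (R := DualNumber (RR l)) (S := RR l) fst') ≫ Spec.map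
      (CommRingCat.ofHom (R := ℂ) (S := DualNumber (RR l)) (tw D' (RR l))) = Z.hom := fun D' => by
    rw [← Spec.map_comp]
    rfl
  have hpt : ∀ (k : Type) [Field k] (s : Spec (.of k) ⟶ Spec (.of (DualNumber (RR l)))),
      s ≫ Spec.map (CommRingCat.ofHom (R := ℂ) (S := DualNumber (RR l)) (tw 0 (RR l))) =
      s ≫ Spec.map (CommRingCat.ofHom (R := ℂ) (S := DualNumber (RR l)) (tw D (RR l))) := by
    intro k _ s
    obtain ⟨τ, rfl⟩ := Spec.map_surjective s
    rw [← Spec.map_comp, ← Spec.map_comp]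
    congr 1
    ext c
    change τ.hom (tw 0 (RR l) c) = τ.hom (tw D (RR l) c)
    have h : (tw 0 (RR l) c - tw D (RR l) c) * (tw 0 (RR l) c - tw D (RR l) c) = 0 := by
      have h0 : (tw 0 (RR l) c - tw D (RR l) c).fst = 0 := by
        rw [TrivSqZeroExt.fst_sub, fst_tw, fst_tw, sub_self]
      ext
      · rw [TrivSqZeroExt.fst_mul, h0, mul_zero, TrivSqZeroExt.fst_zero]
      · rw [TrivSqZeroExt.snd_mul, h0]
        simp
    have h' := congrArg τ.hom h
    rw [map_mul, map_zero, mul_self_eq_zero, map_sub, sub_eq_zero] at h'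
    exact h'
  have hr : Spec.map (CommRingCat.ofHom (R := RR l) (S := DualNumber (RR l)) inl') ≫ Z.hom =
      Spec.map (CommRingCat.ofHom (R := ℂ) (S := DualNumber (RR l)) (tw 0 (RR l))) := by
    change Spec.map _ ≫ Spec.map _ = _
    rw [← Spec.map_comp]
    congr 1
    ext c
    · rfl
    · change (0 : RR l) = algebraMap ℂ (RR l) ((0 : Derivation ℚ ℂ ℂ) c)
      simp
  have hjr : Spec.map (CommRingCat.ofHom (R := DualNumber (RR l)) (S := RR l) fst') ≫ Spec.map (CommRingCat.ofHom (R := RR l) (S := DualNumber (RR l)) inl') = 𝟙 _ := by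
    rw [← Spec.map_comp]
    exact Spec.map_id _
  obtain ⟨w, hw1, hw2⟩ := key hT 𝒞 Φ α (Spec (.of (DualNumber (RR l))))
    (Spec.map (CommRingCat.ofHom (R := ℂ) (S := DualNumber (RR l)) (tw 0 (RR l))))
    (Spec.map (CommRingCat.ofHom (R := ℂ) (S := DualNumber (RR l)) (tw D (RR l))))
    (Spec.map (CommRingCat.ofHom (R := DualNumber (RR l)) (S := RR l) fst')) (hj 0) (hj D) hpt
    (Spec.map (CommRingCat.ofHom (R := RR l) (S := DualNumber (RR l)) inl')) hr hjr
  obtain ⟨ψ, rfl⟩ := Spec.map_surjective w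
  change Spec.map ψ ≫ Spec.map _ = _ at hw1
  rw [← Spec.map_comp] at hw1 hw2
  have e1 := Spec.map_injective hw1
  have e2 : ψ ≫ CommRingCat.ofHom (R := DualNumber (RR l)) (S := RR l) fst' = 𝟙 _ :=
    Spec.map_injective (hw2.trans (Spec.map_id _).symm)
  exact no_lift D l hl ψ.hom (fun r => congrArg (fun φ => φ.hom r) e2)
    (fun c => congrArg (fun φ => φ.hom c) e1)

end

end Pool.Agent.H988Z.Mod
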