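import Pool.Agent.H988Z.Mod.IsoLemmas

/-!
Polarized manifolds, the moduli stack of a class of polarized manifolds, and quotient stacks.
-/

set_option autoImplicit false

open AlgebraicGeometry CategoryTheory Limits MonoidalCategory CartesianMonoidalCategory

namespace Pool.Agent.H988Z.Mod

noncomputable section

/-! ### Polarized manifolds and their moduli stacks -/

/-- `(F, H)` is a polarized manifold: `F` is a connected smooth projective complex variety and
`H` is an ample invertible sheaf on `F`. -/
def IsPolarizedManifold {F : Scheme.{0}} (p : F ⟶ SpecC) (H : LB F) : Prop :=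
  ConnectedSpace F ∧ Smooth p ∧ IsProjective p ∧ H.IsAmple

/-- A class of polarized manifolds. To read the condition on every geometric fibre, the class
says, for every algebraically closed field `k` over `ℂ` (with structure map `c`), which pairs
`(F, H)` over `k` belong to it. It is closed under isomorphism, and its members over `ℂ` itself
are polarized manifolds. No further link between the different fields `k` is imposed, so
every convention for geometric points with values in larger fields is covered (for instance no
condition at all at such points). -/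
structure PolClass where
  /-- membership of the pair `(F, H)`, where `F` is a scheme over the field `k` over `ℂ` -/
  mem : ∀ (k : Type) [Field k] [IsAlgClosed k] (_ : Spec (.of k) ⟶ SpecC)
    (F : Scheme.{0}) (_ : F ⟶ Spec (.of k)) (_ : LB F), Prop
  polarized : ∀ (F : Scheme.{0}) (p : F ⟶ SpecC) (H : LB F),
    mem ℂ (𝟙 SpecC) F p H → IsPolarizedManifold p H
  iso_closed : ∀ (k : Type) [Field k] [IsAlgClosed k] (c : Spec (.of k) ⟶ SpecC)
    (F F' : Scheme.{0}) (p : F ⟶ Spec (.of k)) (p' : F' ⟶ Spec (.of k)) (H : LB F) (H' : LB F')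
    (e : F' ≅ F), e.hom ≫ p = p' → (H.pull e.hom).Iso H' → mem k c F p H → mem k c F' p' H'

/-- An object of the moduli stack of the class `𝒞` over a complex scheme `S` (in the class `T` of
test schemes): a smooth projective morphism `f : X ⟶ S` with an `f`-ample invertible sheaf `L`
all of whose geometric fibres belong to `𝒞`. -/
structure Family (𝒞 : PolClass) (T : Over SpecC → Prop) where
  /-- the base -/
  S : Over SpecC
  test : T S
  /-- the total space -/
  X : Scheme.{0}
  /-- the family -/
  f : X ⟶ S.left
  /-- the polarization -/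
  L : LB X
  smooth : Smooth f
  projective : IsProjective f
  ample : IsRelAmple f L
  fibres : ∀ (k : Type) [Field k] [IsAlgClosed k] (s : Spec (.of k) ⟶ S.left),
    𝒞.mem k (s ≫ S.hom) (pullback f s) (pullback.snd f s) (L.pull (pullback.fst f s))

/-- A morphism of families: a morphism `base : S' ⟶ S` of complex schemes and a morphism
`tot : X' ⟶ X` inducing an `S'`-isomorphism `X' ≅ X ×_S S'`, such that the pull back of `L` is
isomorphic to `L' ⊗ f'^* B` for some invertible sheaf `B` on `S'`. -/
@[ext]
structure Family.Hom {𝒞 : PolClass} {T : Over SpecC → Prop} (ξ' ξ : Family 𝒞 T) where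
  /-- the morphism of bases -/
  base : ξ'.S ⟶ ξ.S
  /-- the morphism of total spaces -/
  tot : ξ'.X ⟶ ξ.X
  cart : IsPullback tot ξ'.f ξ.f base.left
  pol : ∃ B : LB ξ'.S.left, (ξ.L.pull tot).Iso (ξ'.L.tensor (B.pull ξ'.f))

/-- The identity morphism of a family. -/
def Family.Hom.id {𝒞 : PolClass} {T : Over SpecC → Prop} (ξ : Family 𝒞 T) : Family.Hom ξ ξ :=
  ⟨𝟙 _, 𝟙 _, IsPullback.of_horiz_isIso ⟨by simp⟩, pol_id ξ.f ξ.L⟩

/-- The composition of morphisms of families. -/
def Family.Hom.comp {𝒞 : PolClass} {T : Over SpecC → Prop} {ξ'' ξ' ξ : Family 𝒞 T}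
    (m : Family.Hom ξ'' ξ') (n : Family.Hom ξ' ξ) : Family.Hom ξ'' ξ :=
  ⟨m.base ≫ n.base, m.tot ≫ n.tot, m.cart.paste_horiz n.cart, pol_comp m.cart.w m.pol n.pol⟩

/-- The moduli stack `M_𝒞` as a category. -/
instance familyCategory (𝒞 : PolClass) (T : Over SpecC → Prop) : Category (Family 𝒞 T) where
  Hom := Family.Hom
  id := Family.Hom.id
  comp := Family.Hom.comp
  id_comp _ := Family.Hom.ext (Category.id_comp _) (Category.id_comp _)
  comp_id _ := Family.Hom.ext (Category.comp_id _) (Category.comp_id _)
  assoc _ _ _ := Family.Hom.ext (Category.assoc _ _ _) (Category.assoc _ _ _)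

/-- The structure functor of the moduli stack `M_𝒞` to complex schemes. -/
def familyBase (𝒞 : PolClass) (T : Over SpecC → Prop) : Family 𝒞 T ⥤ Over SpecC where
  obj ξ := ξ.S
  map m := m.base

/-! ### Quotient stacks -/

/-- The product `G × Z` of complex schemes. -/
def prodC (G Z : Over SpecC) : Over SpecC := G ⊗ Z

/-- The morphism `G × Z ⟶ G × Z'` induced by `t : Z ⟶ Z'`. -/
def prodMap (G : Over SpecC) {Z Z' : Over SpecC} (t : Z ⟶ Z') : prodC G Z ⟶ prodC G Z' := G ◁ t

/-- The morphism `Z ⟶ G × Z`, `z ↦ (1, z)`. -/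
def oneMap (G : Over SpecC) [GrpObj G] (Z : Over SpecC) : Z ⟶ prodC G Z :=
  (λ_ Z).inv ≫ MonObj.one ▷ Z

/-- The morphism `G × (G × Z) ⟶ G × Z`, `(g, (h, z)) ↦ (g h, z)`. -/
def mulMap (G : Over SpecC) [GrpObj G] (Z : Over SpecC) : prodC G (prodC G Z) ⟶ prodC G Z :=
  (α_ G G Z).inv ≫ MonObj.mul ▷ Z

/-- An action of the group scheme `G` on the complex scheme `Z`. -/
structure Action (G : Over SpecC) [GrpObj G] (Z : Over SpecC) where
  /-- the action morphism `G × Z ⟶ Z` -/
  a : prodC G Z ⟶ Z
  one_a : oneMap G Z ≫ a = 𝟙 Z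
  mul_a : mulMap G Z ≫ a = prodMap G a ≫ a

/-- The morphism `t` is equivariant for the actions `α` and `β`. -/
def IsEquivariant {G : Over SpecC} [GrpObj G] {P P' : Over SpecC} (α : Action G P)
    (β : Action G P') (t : P ⟶ P') : Prop :=
  α.a ≫ t = prodMap G t ≫ β.a

/-- A linear algebraic group over `ℂ`: the group scheme `G` is affine and of finite type. -/
def IsLinearAlgebraic (G : Over SpecC) : Prop :=
  IsAffine G.left ∧ LocallyOfFiniteType G.hom

/-- An object of the quotient stack `[Z/G]` over a complex scheme `S` (in the class `T` of test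
schemes): a principal `G`-bundle (fppf torsor) `π : P ⟶ S` with an equivariant morphism
`φ : P ⟶ Z`. -/
structure QuotObj {G : Over SpecC} [GrpObj G] {Z : Over SpecC} (ρ : Action G Z)
    (T : Over SpecC → Prop) where
  /-- the base -/
  S : Over SpecC
  test : T S
  /-- the total space of the principal bundle -/
  P : Over SpecC
  /-- the action of `G` on `P` -/
  act : Action G P
  /-- the projection of the principal bundle -/
  π : P ⟶ S
  /-- the equivariant morphism to `Z` -/
  φ : P ⟶ Z
  flat : Flat π.left
  surj : Surjective π.left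
  lfp : LocallyOfFinitePresentation π.left
  torsor : IsPullback act.a (snd G P) π π
  equivariant : IsEquivariant act ρ φ

/-- A morphism in `[Z/G]`: a cartesian square of principal bundles, equivariant and compatible
with the morphisms to `Z`. -/
@[ext]
structure QuotObj.Hom {G : Over SpecC} [GrpObj G] {Z : Over SpecC} {ρ : Action G Z}
    {T : Over SpecC → Prop} (y' y : QuotObj ρ T) where
  /-- the morphism of bases -/
  base : y'.S ⟶ y.S
  /-- the morphism of principal bundles -/
  tot : y'.P ⟶ y.P
  cart : IsPullback tot y'.π y.π base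
  equivariant : IsEquivariant y'.act y.act tot
  comm : tot ≫ y.φ = y'.φ

theorem IsEquivariant.id {G : Over SpecC} [GrpObj G] {P : Over SpecC} (α : Action G P) :
    IsEquivariant α α (𝟙 P) := by
  simp [IsEquivariant, prodMap, prodC]

theorem IsEquivariant.comp {G : Over SpecC} [GrpObj G] {P P' P'' : Over SpecC} {α : Action G P}
    {β : Action G P'} {γ : Action G P''} {t : P ⟶ P'} {u : P' ⟶ P''} (h : IsEquivariant α β t)
    (h' : IsEquivariant β γ u) : IsEquivariant α γ (t ≫ u) := by
  unfold IsEquivariant at *
  rw [← Category.assoc, h, Category.assoc, h', ← Category.assoc]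
  congr 1
  exact (MonoidalCategory.whiskerLeft_comp G t u).symm

/-- The identity morphism of an object of `[Z/G]`. -/
def QuotObj.Hom.id {G : Over SpecC} [GrpObj G] {Z : Over SpecC} {ρ : Action G Z}
    {T : Over SpecC → Prop} (y : QuotObj ρ T) : QuotObj.Hom y y :=
  ⟨𝟙 _, 𝟙 _, IsPullback.of_horiz_isIso ⟨by simp⟩, IsEquivariant.id _, Category.id_comp _⟩

/-- The composition of morphisms in `[Z/G]`. -/
def QuotObj.Hom.comp {G : Over SpecC} [GrpObj G] {Z : Over SpecC} {ρ : Action G Z}
    {T : Over SpecC → Prop} {y'' y' y : QuotObj ρ T} (m : QuotObj.Hom y'' y')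
    (n : QuotObj.Hom y' y) : QuotObj.Hom y'' y :=
  ⟨m.base ≫ n.base, m.tot ≫ n.tot, m.cart.paste_horiz n.cart, m.equivariant.comp n.equivariant,
    by rw [Category.assoc, n.comm, m.comm]⟩

/-- The quotient stack `[Z/G]` as a category. -/
instance quotCategory {G : Over SpecC} [GrpObj G] {Z : Over SpecC} (ρ : Action G Z)
    (T : Over SpecC → Prop) : Category (QuotObj ρ T) where
  Hom := QuotObj.Hom
  id := QuotObj.Hom.id
  comp := QuotObj.Hom.comp
  id_comp _ := QuotObj.Hom.ext (Category.id_comp _) (Category.id_comp _)
  comp_id _ := QuotObj.Hom.ext (Category.comp_id _) (Category.comp_id _)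
  assoc _ _ _ := QuotObj.Hom.ext (Category.assoc _ _ _) (Category.assoc _ _ _)

/-- The structure functor of the quotient stack `[Z/G]` to complex schemes. -/
def quotBase {G : Over SpecC} [GrpObj G] {Z : Over SpecC} (ρ : Action G Z)
    (T : Over SpecC → Prop) : QuotObj ρ T ⥤ Over SpecC where
  obj y := y.S
  map m := m.base

end

end Pool.Agent.H988Z.Mod
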